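import Mathlib
import Pool.Agent.Helper974.Diff

namespace Pool.Agent.Results.MP_027f17_mp.DegenerateLaws

open Pool.Agent.Helper974.Diff Filter Topology

/-- infinite jets of `u = (u^0,…,u^{N-1})`: `x (i, j)` is the value of `u^i_j` -/
abbrev Jets (N : ℕ) := Fin N × ℕ → ℝ

/-- the derivatives of order `< n` of a jet -/
def trunc {N : ℕ} (n : ℕ) (x : Jets N) : Fin N × Fin n → ℝ := fun a => x (a.1, a.2)

/-- near the jet `p`, `f` is an analytic function of the `u^i_j` with `j < n` -/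
def AnalyticNear {N : ℕ} (p : Jets N) (n : ℕ) (f : Jets N → ℝ) : Prop :=
  ∃ g : (Fin N × Fin n → ℝ) → ℝ, AnalyticAt ℝ g (trunc n p) ∧ ∀ᶠ x in 𝓝 p, f x = g (trunc n x)

/-- the derivative `∂f/∂u^i_j`, `a = (i, j)` -/
noncomputable def pdf {N : ℕ} (a : Fin N × ℕ) (f : Jets N → ℝ) (x : Jets N) : ℝ :=
  deriv (fun t => f (Function.update x a t)) (x a)

section Abstract

variable {V : Type} [CommRing V] [Algebra ℝ V] (A : DiffAlg 3 V)

/-- the cubic term `u_x^2 w_x` -/
def cub : V := A.u (0, 1) ^ 2 * A.u (1, 1)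

/-- right-hand sides `u_3, w_3, v_3 + u_1^2 w_1` -/
def rhs : Fin 3 → V := ![A.u (0, 3), A.u (1, 3), A.u (2, 3) + cub A]

/-- derivative of the cubic term -/
def mm : Fin 3 → V := ![2 * A.u (0, 1) * A.u (1, 1), A.u (0, 1) ^ 2, 0]

lemma pd_cub_one (i : Fin 3) : A.pd (i, 1) (cub A) = mm A i := by
  unfold cub mm
  rw [Derivation.leibniz, Derivation.leibniz_pow, A.pd_u, A.pd_u]
  fin_cases i
  · simp; ring
  · simp
  · simp

lemma ordLT_cub : A.OrdLT 2 (cub A) := by
  unfold cub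
  apply DiffAlg.OrdLT.mul
  · rw [pow_two]; exact DiffAlg.OrdLT.mul A (A.OrdLT_u (0, 1)) (A.OrdLT_u (0, 1))
  · exact A.OrdLT_u (1, 1)

lemma pd_cub_zero (i : Fin 3) : A.pd (i, 0) (cub A) = 0 := by
  unfold cub
  rw [Derivation.leibniz, Derivation.leibniz_pow, A.pd_u, A.pd_u]
  simp

lemma P_u (i b : Fin 3) (p : V) : A.P i p (A.u (b, 3)) = if i = b then - A.D (A.D (A.D p)) else 0 := by
  rw [A.P_eq i p (A.OrdLT_u (b, 3))]
  simp only [Finset.sum_range_succ, Finset.sum_range_zero, A.pd_u]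
  by_cases h : i = b
  · simp [h]; ring
  · simp [h]

lemma P_cub (i : Fin 3) (p : V) : A.P i p (cub A) = - A.D (p * mm A i) := by
  rw [A.P_eq i p (ordLT_cub A)]
  simp [Finset.sum_range_succ, pd_cub_zero, pd_cub_one]

/-- equation satisfied by variational derivatives of conserved densities -/
lemma cosym (ρ σ : V) (h : A.ev (rhs A) ρ = A.D σ) (i : Fin 3) :
    A.ev (rhs A) (A.E i ρ) - A.D (A.D (A.D (A.E i ρ))) - A.D (A.E 2 ρ * mm A i) = 0 := by
  have h1 := A.E_ev (rhs A) i ρ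
  rw [h, A.E_D, Fin.sum_univ_three] at h1
  simp only [rhs, Matrix.cons_val_zero, Matrix.cons_val_one, Matrix.cons_val, A.P_add_right,
    P_u, P_cub] at h1
  rw [h1]
  unfold rhs
  fin_cases i <;> simp <;> ring

lemma iter_D_u (j k : ℕ) (i : Fin 3) : A.D^[j] (A.u (i, k)) = A.u (i, k + j) := by
  induction j generalizing k with
  | zero => rfl
  | succ j ih => rw [Function.iterate_succ_apply, A.D_u, ih]; congr 2; omega

lemma pd_iter_rhs (n : ℕ) (a b : Fin 3) (j : ℕ) (hj : j ≤ n) :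
    A.pd (a, n + 1) (A.D^[j] (rhs A b)) =
      (if a = b ∧ n = j + 2 then 1 else 0) + (if b = 2 ∧ j = n then mm A a else 0) := by
  have hc : A.pd (a, n + 1) (A.D^[j] (cub A)) = if j = n then mm A a else 0 := by
    by_cases h : j = n
    · subst h
      rw [if_pos rfl, add_comm j 1, A.pd_top_iter_D (ordLT_cub A), pd_cub_one]
    · rw [if_neg h]
      exact DiffAlg.OrdLT.iter_D A (ordLT_cub A) j a (n + 1) (by omega)
  have hu : ∀ b, A.pd (a, n + 1) (A.D^[j] (A.u (b, 3))) = if a = b ∧ n = j + 2 then 1 else 0 := by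
    intro b
    rw [iter_D_u, A.pd_u]
    by_cases h : a = b ∧ n = j + 2
    · rw [if_pos h, if_pos]; rw [h.1, h.2]; congr 1; omega
    · rw [if_neg h, if_neg]
      intro h2
      apply h
      refine ⟨congrArg Prod.fst h2, ?_⟩
      have := congrArg Prod.snd h2
      simp at this
      omega
  fin_cases b
  · simp [rhs, hu]
  · simp [rhs, hu]
  · simp only [rhs, Fin.reduceFinMk, Matrix.cons_val, A.iter_D_add, map_add, hu, hc]
    simp

/-- `∂_{a,n+1}` of the time derivative of a function of order `≤ n` -/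
lemma pd_ev (n : ℕ) (hn : 2 ≤ n) (f : V) (hf : A.OrdLT (n + 1) f) (a : Fin 3) :
    A.pd (a, n + 1) (A.ev (rhs A) f) = A.pd (a, n - 2) f + mm A a * A.pd (2, n) f := by
  unfold DiffAlg.ev
  rw [A.pd_der, hf a (n + 1) le_rfl, map_zero, zero_add, A.der_eq _ hf]
  have h1 : ∀ j ∈ Finset.range (n + 1), ∑ b : Fin 3, A.pd (a, n + 1) (A.D^[j] (rhs A b)) *
      A.pd (b, j) f = (if n = j + 2 then A.pd (a, j) f else 0)
        + (if j = n then mm A a * A.pd (2, n) f else 0) := by
    intro j hj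
    have hj' : j ≤ n := by simpa [Nat.lt_succ_iff] using hj
    simp only [pd_iter_rhs A n a _ j hj', add_mul, Finset.sum_add_distrib, ite_mul, one_mul,
      zero_mul, ite_and]
    congr 1
    · simp
    · by_cases h : j = n
      · subst h; simp
      · simp [h]
  rw [Finset.sum_congr rfl h1, Finset.sum_add_distrib]
  congr 1
  · rw [Finset.sum_eq_single (n - 2)]
    · rw [if_pos (by omega)]
    · intro b _ hb; rw [if_neg (by omega)]
    · intro h; simp at h
  · rw [Finset.sum_eq_single n]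
    · rw [if_pos rfl]
    · intro b _ hb; rw [if_neg hb]
    · intro h; simp at h


lemma pd_ddd (a : Fin 3) (k : ℕ) (f : V) : A.pd (a, k + 3) (A.D (A.D (A.D f)))
    = A.D (A.D (A.D (A.pd (a, k + 3) f))) + 3 * A.D (A.D (A.pd (a, k + 2) f))
      + 3 * A.D (A.pd (a, k + 1) f) + A.pd (a, k) f := by
  simp only [A.pd_succ_D, map_add]
  ring

omit A in
lemma cancel (n : ℕ) (hn : n ≠ 0) (x : V) (h : (n : V) * x = 0) : x = 0 := by
  have h1 : x = ((1 / n : ℝ)) • ((n : V) * x) := by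
    rw [Algebra.smul_def, ← mul_assoc, ← map_natCast (algebraMap ℝ V) n, ← map_mul]
    have : (1 / n : ℝ) * n = 1 := by
      have : (n : ℝ) ≠ 0 := by exact_mod_cast hn
      field_simp
    rw [this, map_one, one_mul]
  rw [h1, h, smul_zero]

lemma ordLT_mm (i : Fin 3) : A.OrdLT 2 (mm A i) := by
  rw [← pd_cub_one]
  exact DiffAlg.OrdLT.pd A (ordLT_cub A) _

/-- no dependence on any variable -/
lemma ordLT_zero_of_D (f : V) (h : A.D f = 0) : A.OrdLT 0 f := by
  apply A.ordLT_of_D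
  rw [h]
  intro i j _
  rw [map_zero]

/-- key algebra: a quadratic form `C u_1^2 - 2 C' u_1 w_1` is a total derivative only if it is 0 -/
lemma quad_exact (C C' l : V) (hC : A.OrdLT 0 C) (hC' : A.OrdLT 0 C')
    (h : C * A.u (0, 1) ^ 2 - C' * (2 * A.u (0, 1) * A.u (1, 1)) = 3 * A.D l) :
    C = 0 ∧ C' = 0 := by
  have h3 : ∀ a : Fin 3 × ℕ, A.pd a (3 : V) = 0 := by
    intro a
    have := (A.pd a).map_natCast 3
    simpa using this
  have h2 : ∀ a : Fin 3 × ℕ, A.pd a (2 : V) = 0 := by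
    intro a
    have := (A.pd a).map_natCast 2
    simpa using this
  have hc : ∀ a : Fin 3 × ℕ, A.pd a C = 0 := fun a => hC a.1 a.2 (Nat.zero_le _)
  have hc' : ∀ a : Fin 3 × ℕ, A.pd a C' = 0 := fun a => hC' a.1 a.2 (Nat.zero_le _)
  have hl : A.OrdLT 1 l := by
    apply A.ordLT_of_D
    intro i j hj
    have h0 : (3 : V) * A.pd (i, j) (A.D l) = 0 := by
      have := congrArg (A.pd (i, j)) h
      rw [Derivation.leibniz (A.pd (i, j)) 3, h3] at this
      simp only [smul_eq_mul, mul_zero, add_zero] at this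
      rw [← this, map_sub]
      simp only [Derivation.leibniz, Derivation.leibniz_pow, hc, hc', h2, A.pd_u]
      have e1 : ((i, j) : Fin 3 × ℕ) ≠ (0, 1) := by
        intro h; have := congrArg Prod.snd h; simp at this; omega
      have e2 : ((i, j) : Fin 3 × ℕ) ≠ (1, 1) := by
        intro h; have := congrArg Prod.snd h; simp at this; omega
      simp [e1, e2]
    have := cancel 3 (by norm_num) (A.pd (i, j) (A.D l)) (by push_cast; exact h0)
    exact this
  have hD : ∀ i k : Fin 3, A.pd (i, 1) (A.pd (k, 1) (A.D l)) = 0 := by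
    intro i k
    rw [A.pd_succ_D k 0, hl k 1 le_rfl, map_zero, zero_add, A.pd_comm, hl i 1 le_rfl, map_zero]
  have hL : ∀ i k : Fin 3, A.pd (i, 1) (A.pd (k, 1)
      (C * A.u (0, 1) ^ 2 - C' * (2 * A.u (0, 1) * A.u (1, 1)))) = 0 := by
    intro i k
    rw [h, Derivation.leibniz (A.pd (k, 1)) 3, h3, smul_zero, add_zero, smul_eq_mul,
      Derivation.leibniz (A.pd (i, 1)) 3, h3, smul_zero, add_zero, smul_eq_mul, hD, mul_zero]
  constructor
  · have := hL 0 0
    simp only [map_sub, map_add, Derivation.leibniz, Derivation.leibniz_pow, hc, hc', h2, A.pd_u,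
      smul_eq_mul, nsmul_eq_mul] at this
    simp [h2] at this
    apply cancel 2 (by norm_num)
    push_cast
    rw [mul_comm]
    exact this
  · have := hL 1 0
    simp only [map_sub, map_add, Derivation.leibniz, Derivation.leibniz_pow, hc, hc', h2, A.pd_u,
      smul_eq_mul, nsmul_eq_mul] at this
    simp [h2] at this
    apply cancel 2 (by norm_num)
    push_cast
    rw [mul_comm]
    exact this

/-- **Abstract form.** The Hessian of a conserved density has a zero column. -/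
theorem hessian_column (k : ℕ) (ρ σ : V) (hρ : A.OrdLT (k + 2) ρ)
    (h : A.ev (rhs A) ρ = A.D σ) (i : Fin 3) : A.pd (i, k + 1) (A.pd (2, k + 1) ρ) = 0 := by
  obtain ⟨m, hm⟩ : ∃ m, 2 * (k + 1) = m + 2 := ⟨2 * k, by ring⟩
  have hf : ∀ i, A.OrdLT (m + 3) (A.E i ρ) := by
    intro i
    have := A.E_ordLT hρ i
    rw [hm] at this
    exact this
  have htop : ∀ i a, A.pd (a, m + 2) (A.E i ρ) = (-1) ^ (k + 1) * A.pd (a, k + 1) (A.pd (i, k + 1) ρ) := by
    intro i a
    rw [← hm]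
    exact A.pd_top_E hρ i a
  have hsym : ∀ i a, A.pd (a, m + 2) (A.E i ρ) = A.pd (i, m + 2) (A.E a ρ) := by
    intro i a
    rw [htop, htop, A.pd_comm]
  have hord : ∀ i, A.OrdLT (m + 3) (A.E 2 ρ * mm A i) := fun i =>
    DiffAlg.OrdLT.mul A (hf 2) (DiffAlg.OrdLT.mono A (ordLT_mm A i) (by omega))
  have e1 : ∀ i a, A.D (A.pd (a, m + 2) (A.E i ρ)) = 0 := by
    intro i a
    have h1 := congrArg (A.pd (a, m + 4)) (cosym A ρ σ h i)
    rw [map_sub, map_sub, map_zero, pd_ev A (m + 3) (by omega) _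
      (DiffAlg.OrdLT.mono A (hf i) (by omega)), hf i 2 (m + 3) le_rfl,
      show m + 4 = (m + 1) + 3 by ring, pd_ddd, hf i a (m + 1 + 3) (by omega),
      hf i a (m + 1 + 2) (by omega), show m + 1 + 3 = (m + 3) + 1 by ring, A.pd_succ_D,
      hord i a (m + 3 + 1) (by omega), hord i a (m + 3) le_rfl] at h1
    simp only [map_zero, mul_zero, add_zero, zero_add, sub_zero,
      show m + 3 - 2 = m + 1 by omega, show m + 1 + 1 = m + 2 by ring] at h1
    apply cancel 3 (by norm_num)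
    push_cast
    rw [← neg_eq_zero, ← h1]
    ring
  have e2 : ∀ i a, A.pd (2, m + 2) (A.E i ρ) * mm A a - A.pd (a, m + 2) (A.E 2 ρ) * mm A i
      = 3 * A.D (A.pd (a, m + 1) (A.E i ρ)) := by
    intro i a
    have h1 := congrArg (A.pd (a, m + 3)) (cosym A ρ σ h i)
    rw [map_sub, map_sub, map_zero, pd_ev A (m + 2) (by omega) _ (hf i), pd_ddd,
      hf i a (m + 3) le_rfl, e1 i a, A.pd_succ_D, hord i a (m + 2 + 1) (by omega),
      Derivation.leibniz, ordLT_mm A i a (m + 2) (by omega)] at h1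
    simp only [map_zero, mul_zero, add_zero, zero_add, smul_eq_mul,
      show m + 2 - 2 = m by omega] at h1
    linear_combination h1
  have z : ∀ i a, A.OrdLT 0 (A.pd (a, m + 2) (A.E i ρ)) := fun i a => ordLT_zero_of_D A _ (e1 i a)
  have s1 := e2 0 1
  have s2 := e2 2 1
  simp only [mm, Matrix.cons_val_zero, Matrix.cons_val_one, Matrix.cons_val] at s1 s2
  have q1 := quad_exact A _ _ _ (z 0 2) (z 2 1) s1
  have q2 := quad_exact A (A.pd (2, m + 2) (A.E 2 ρ)) 0 _ (z 2 2) (by intro i j _; rw [map_zero])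
    (by rw [← s2]; ring)
  have col : ∀ i, A.pd (i, m + 2) (A.E 2 ρ) = 0 := by
    intro i
    fin_cases i
    · have := hsym 0 2
      exact this ▸ q1.1
    · exact q1.2
    · exact q2.1
  have h5 := htop 2 i
  rw [col] at h5
  rcases neg_one_pow_eq_or V (k + 1) with h | h <;> rw [h] at h5 <;> simpa using h5.symm

end Abstract

section Calc

variable {N : ℕ} {p : Jets N}

lemma continuous_trunc (n : ℕ) : Continuous (trunc n : Jets N → _) :=
  continuous_pi fun _ => continuous_apply _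

lemma trunc_update (n : ℕ) (x : Jets N) (a : Fin N × ℕ) (t : ℝ) :
    trunc n (Function.update x a t) = trunc n x + (t - x a) • trunc n (Pi.single a 1) := by
  funext b
  simp only [trunc, Pi.add_apply, Pi.smul_apply, smul_eq_mul, Function.update_apply, Pi.single_apply]
  split_ifs with h
  · rw [h]; ring
  · ring

lemma continuous_update (x : Jets N) (a : Fin N × ℕ) :
    Continuous (fun t : ℝ => Function.update x a t) :=
  continuous_const.update a continuous_id

lemma tendsto_update (x : Jets N) (a : Fin N × ℕ) :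
    Tendsto (fun t : ℝ => Function.update x a t) (𝓝 (x a)) (𝓝 x) := by
  have := (continuous_update x a).tendsto (x a)
  rwa [Function.update_eq_self] at this

lemma pdf_congr {f g : Jets N → ℝ} (a : Fin N × ℕ) (h : f =ᶠ[𝓝 p] g) :
    pdf a f =ᶠ[𝓝 p] pdf a g := by
  filter_upwards [h.eventually_nhds] with x hx
  exact Filter.EventuallyEq.deriv_eq ((tendsto_update x a).eventually hx)

lemma hasDeriv {n : ℕ} {f : Jets N → ℝ} {g : (Fin N × Fin n → ℝ) → ℝ} {x : Jets N}
    (hg : DifferentiableAt ℝ g (trunc n x)) (hf : ∀ᶠ y in 𝓝 x, f y = g (trunc n y))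
    (a : Fin N × ℕ) :
    HasDerivAt (fun t => f (Function.update x a t))
      (fderiv ℝ g (trunc n x) (trunc n (Pi.single a 1))) (x a) := by
  have h1 : HasDerivAt (fun t : ℝ => trunc n x + (t - x a) • trunc n (Pi.single a (1 : ℝ)))
      ((1 : ℝ) • trunc n (Pi.single a 1)) (x a) :=
    (((hasDerivAt_id (x a)).sub_const (x a)).smul_const _).const_add _
  have hg' : HasFDerivAt g (fderiv ℝ g (trunc n x))
      (trunc n x + (x a - x a) • trunc n (Pi.single a (1 : ℝ))) := by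
    simpa using hg.hasFDerivAt
  have h2 := hg'.comp_hasDerivAt (x a) h1
  rw [one_smul] at h2
  refine h2.congr_of_eventuallyEq ?_
  filter_upwards [(tendsto_update x a).eventually hf] with t ht
  rw [ht, trunc_update]
  rfl

/-- `f` is represented by `g` near `p` -/
def Rep (p : Jets N) (n : ℕ) (f : Jets N → ℝ) (g : (Fin N × Fin n → ℝ) → ℝ) : Prop :=
  AnalyticAt ℝ g (trunc n p) ∧ ∀ᶠ x in 𝓝 p, f x = g (trunc n x)

lemma Rep.near {n : ℕ} {f : Jets N → ℝ} {g : (Fin N × Fin n → ℝ) → ℝ} (h : Rep p n f g) :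
    ∀ᶠ x in 𝓝 p, AnalyticAt ℝ g (trunc n x) ∧ ∀ᶠ y in 𝓝 x, f y = g (trunc n y) := by
  have h1 := (continuous_trunc n).continuousAt.eventually h.1.eventually_analyticAt
  exact h1.and h.2.eventually_nhds

lemma Rep.hasDerivAt {n : ℕ} {f : Jets N → ℝ} {g : (Fin N × Fin n → ℝ) → ℝ} (h : Rep p n f g)
    (a : Fin N × ℕ) : ∀ᶠ x in 𝓝 p, HasDerivAt (fun t => f (Function.update x a t))
      (fderiv ℝ g (trunc n x) (trunc n (Pi.single a 1))) (x a) := by
  filter_upwards [h.near] with x hx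
  exact hasDeriv hx.1.differentiableAt hx.2 a

lemma Rep.pdf {n : ℕ} {f : Jets N → ℝ} {g : (Fin N × Fin n → ℝ) → ℝ} (h : Rep p n f g)
    (a : Fin N × ℕ) :
    Rep p n (pdf a f) (fun y => fderiv ℝ g y (trunc n (Pi.single a 1))) := by
  constructor
  · exact ((ContinuousLinearMap.apply ℝ ℝ (trunc n (Pi.single a (1 : ℝ)))).analyticAt _).comp
      h.1.fderiv
  · filter_upwards [h.hasDerivAt a] with x hx
    exact hx.deriv

lemma Rep.mono {n m : ℕ} {f : Jets N → ℝ} {g : (Fin N × Fin n → ℝ) → ℝ} (h : Rep p n f g)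
    (hnm : n ≤ m) :
    Rep p m f (fun y => g (fun a => y (a.1, Fin.castLE hnm a.2))) := by
  have e : ∀ x : Jets N, (fun a : Fin N × Fin n => trunc m x (a.1, Fin.castLE hnm a.2))
      = trunc n x := fun x => rfl
  constructor
  · have hL : AnalyticAt ℝ (fun y : Fin N × Fin m → ℝ =>
        (fun a : Fin N × Fin n => y (a.1, Fin.castLE hnm a.2))) (trunc m p) := by
      rw [analyticAt_pi_iff]
      intro a
      exact (ContinuousLinearMap.proj (R := ℝ) (φ := fun _ : Fin N × Fin m => ℝ)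
        (a.1, Fin.castLE hnm a.2)).analyticAt _
    exact AnalyticAt.comp (g := g) (by rw [e]; exact h.1) hL
  · exact h.2

lemma Rep.add {n : ℕ} {f f' : Jets N → ℝ} {g g' : (Fin N × Fin n → ℝ) → ℝ}
    (h : Rep p n f g) (h' : Rep p n f' g') : Rep p n (f + f') (g + g') := by
  refine ⟨h.1.add h'.1, ?_⟩
  filter_upwards [h.2, h'.2] with x h1 h2
  simp [h1, h2]

lemma Rep.mul {n : ℕ} {f f' : Jets N → ℝ} {g g' : (Fin N × Fin n → ℝ) → ℝ}
    (h : Rep p n f g) (h' : Rep p n f' g') : Rep p n (f * f') (g * g') := by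
  refine ⟨h.1.mul h'.1, ?_⟩
  filter_upwards [h.2, h'.2] with x h1 h2
  simp [h1, h2]

lemma Rep.const (c : ℝ) : Rep p 0 (fun _ => c) (fun _ => c) :=
  ⟨analyticAt_const, Eventually.of_forall fun _ => rfl⟩

lemma Rep.coord (a : Fin N × ℕ) :
    Rep p (a.2 + 1) (fun x => x a) (fun y => y (a.1, ⟨a.2, Nat.lt_succ_self _⟩)) :=
  ⟨(ContinuousLinearMap.proj (R := ℝ) (φ := fun _ : Fin N × Fin (a.2 + 1) => ℝ)
    (a.1, ⟨a.2, Nat.lt_succ_self _⟩)).analyticAt _, Eventually.of_forall fun _ => rfl⟩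

lemma AnalyticNear.common {n m : ℕ} {f f' : Jets N → ℝ} (h : AnalyticNear p n f)
    (h' : AnalyticNear p m f') : ∃ g g', Rep p (n + m) f g ∧ Rep p (n + m) f' g' := by
  obtain ⟨g, hg⟩ := h
  obtain ⟨g', hg'⟩ := h'
  exact ⟨_, _, Rep.mono (n := n) hg (by omega), Rep.mono (n := m) hg' (by omega)⟩

lemma AnalyticNear.mono {n m : ℕ} {f : Jets N → ℝ} (h : AnalyticNear p n f) (hnm : n ≤ m) :
    AnalyticNear p m f := by
  obtain ⟨g, hg⟩ := h
  exact ⟨_, Rep.mono (n := n) hg hnm⟩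

lemma AnalyticNear.pdf {n : ℕ} {f : Jets N → ℝ} (h : AnalyticNear p n f) (a : Fin N × ℕ) :
    AnalyticNear p n (pdf a f) := by
  obtain ⟨g, hg⟩ := h
  exact ⟨_, Rep.pdf (n := n) hg a⟩

lemma pdf_add {n m : ℕ} {f f' : Jets N → ℝ} (h : AnalyticNear p n f) (h' : AnalyticNear p m f')
    (a : Fin N × ℕ) : pdf a (f + f') =ᶠ[𝓝 p] pdf a f + pdf a f' := by
  obtain ⟨g, g', hg, hg'⟩ := h.common h'
  filter_upwards [hg.hasDerivAt a, hg'.hasDerivAt a] with x h1 h2
  have := (h1.add h2).deriv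
  simp only [Pi.add_apply]
  unfold Pool.Agent.Results.MP_027f17_mp.DegenerateLaws.pdf
  rw [h1.deriv, h2.deriv, ← this]
  rfl

lemma pdf_mul {n m : ℕ} {f f' : Jets N → ℝ} (h : AnalyticNear p n f) (h' : AnalyticNear p m f')
    (a : Fin N × ℕ) : pdf a (f * f') =ᶠ[𝓝 p] f * pdf a f' + f' * pdf a f := by
  obtain ⟨g, g', hg, hg'⟩ := h.common h'
  filter_upwards [hg.hasDerivAt a, hg'.hasDerivAt a] with x h1 h2
  have := (h1.mul h2).deriv
  simp only [Pi.add_apply, Pi.mul_apply]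
  unfold Pool.Agent.Results.MP_027f17_mp.DegenerateLaws.pdf
  rw [h1.deriv, h2.deriv]
  simp only [Function.update_eq_self] at this
  have e : (fun t => (f * f') (Function.update x a t))
    = (fun t => f (Function.update x a t)) * fun t => f' (Function.update x a t) := rfl
  rw [e, this]
  ring

lemma pdf_const_mul {n : ℕ} {f : Jets N → ℝ} (_ : AnalyticNear p n f) (c : ℝ)
    (a : Fin N × ℕ) : pdf a ((fun _ => c) * f) =ᶠ[𝓝 p] (fun _ => c) * pdf a f := by
  refine Eventually.of_forall fun x => ?_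
  unfold Pool.Agent.Results.MP_027f17_mp.DegenerateLaws.pdf
  simp only [Pi.mul_apply]
  exact deriv_const_mul_field c

lemma pdf_zero_of_le {n : ℕ} {f : Jets N → ℝ} (h : AnalyticNear p n f) :
    ∀ᶠ x in 𝓝 p, ∀ i j, n ≤ j → pdf (i, j) f x = 0 := by
  obtain ⟨g, hg⟩ := h
  filter_upwards [Rep.near (n := n) hg] with x hx i j hj
  have h1 := hasDeriv hx.1.differentiableAt hx.2 (i, j)
  have h2 : trunc n (Pi.single (i, j) (1 : ℝ)) = 0 := by
    funext b
    simp only [trunc, Pi.single_apply, Pi.zero_apply]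
    rw [if_neg]
    intro h
    have := congrArg Prod.snd h
    simp at this
    omega
  rw [h2, map_zero] at h1
  exact h1.deriv

lemma pdf_comm {n : ℕ} {f : Jets N → ℝ} (h : AnalyticNear p n f) (a b : Fin N × ℕ) :
    pdf a (pdf b f) =ᶠ[𝓝 p] pdf b (pdf a f) := by
  obtain ⟨g, hg⟩ := h
  have hg : Rep p n f g := hg
  have h1 := (hg.pdf b).pdf a
  have h2 := (hg.pdf a).pdf b
  filter_upwards [h1.2, h2.2, hg.near] with x e1 e2 e3
  rw [e1, e2]
  have hA := e3.1
  have hd : DifferentiableAt ℝ (fderiv ℝ g) (trunc n x) := hA.fderiv.differentiableAt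
  have s := (hA.contDiffAt (n := ⊤)).isSymmSndFDerivAt (by simp)
  have k : ∀ v w : Fin N × Fin n → ℝ,
      fderiv ℝ (fun y => fderiv ℝ g y v) (trunc n x) w = fderiv ℝ (fderiv ℝ g) (trunc n x) w v := by
    intro v w
    have := (hd.hasFDerivAt.clm_apply (hasFDerivAt_const v (trunc n x))).fderiv
    rw [this]
    simp
  rw [k, k]
  exact s _ _

lemma pdf_coord (a b : Fin N × ℕ) (x : Jets N) :
    pdf a (fun x => x b) x = if a = b then 1 else 0 := by
  unfold Pool.Agent.Results.MP_027f17_mp.DegenerateLaws.pdf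
  by_cases h : a = b
  · subst h
    simp
  · have : (fun t => Function.update x a t b) = fun _ => x b := by
      funext t
      rw [Function.update_of_ne (Ne.symm h)]
    rw [this, if_neg h]
    simp

end Calc


section Ring

variable {N : ℕ} (p : Jets N)

/-- germs at `p` of local analytic functions of finitely many derivatives -/
def VV : Subring (Germ (𝓝 p) ℝ) where
  carrier := {φ | ∃ n f, AnalyticNear p n f ∧ (f : Germ (𝓝 p) ℝ) = φ}
  mul_mem' := by
    rintro _ _ ⟨n, f, hf, rfl⟩ ⟨m, f', hf', rfl⟩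
    obtain ⟨g, g', hg, hg'⟩ := hf.common hf'
    exact ⟨n + m, f * f', ⟨_, hg.mul hg'⟩, rfl⟩
  one_mem' := ⟨0, fun _ => 1, ⟨_, Rep.const 1⟩, rfl⟩
  add_mem' := by
    rintro _ _ ⟨n, f, hf, rfl⟩ ⟨m, f', hf', rfl⟩
    obtain ⟨g, g', hg, hg'⟩ := hf.common hf'
    exact ⟨n + m, f + f', ⟨_, hg.add hg'⟩, rfl⟩
  zero_mem' := ⟨0, fun _ => 0, ⟨_, Rep.const 0⟩, rfl⟩
  neg_mem' := by
    rintro _ ⟨n, f, ⟨g, hg⟩, rfl⟩
    refine ⟨n, -f, ⟨-g, hg.1.neg, ?_⟩, rfl⟩
    filter_upwards [hg.2] with x hx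
    simp [hx]

/-- the element of `VV p` given by a function -/
def mk (f : Jets N → ℝ) (hf : ∃ n, AnalyticNear p n f) : VV p :=
  ⟨(f : Germ (𝓝 p) ℝ), by obtain ⟨n, hn⟩ := hf; exact ⟨n, f, hn, rfl⟩⟩

lemma mk_eq_mk {f g : Jets N → ℝ} (hf : ∃ n, AnalyticNear p n f) (hg : ∃ n, AnalyticNear p n g) :
    mk p f hf = mk p g hg ↔ f =ᶠ[𝓝 p] g := by
  rw [Subtype.ext_iff]
  exact Germ.coe_eq

lemma exists_mk (φ : VV p) : ∃ f, ∃ hf : (∃ n, AnalyticNear p n f), φ = mk p f hf := by
  obtain ⟨_, n, f, hf, rfl⟩ := φ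
  exact ⟨f, ⟨n, hf⟩, rfl⟩

/-- constants -/
def constHom : ℝ →+* VV p where
  toFun c := mk p (fun _ => c) ⟨0, _, Rep.const c⟩
  map_one' := rfl
  map_mul' _ _ := rfl
  map_zero' := rfl
  map_add' _ _ := rfl

noncomputable instance : Algebra ℝ (VV p) := (constHom p).toAlgebra

/-- the action of `∂/∂u^i_j` on germs -/
noncomputable def pdG (a : Fin N × ℕ) : Germ (𝓝 p) ℝ → Germ (𝓝 p) ℝ :=
  Germ.map' (pdf a) (fun _ _ h => pdf_congr a h)

/-- `∂/∂u^i_j` as a derivation -/
noncomputable def pdV (a : Fin N × ℕ) : Derivation ℝ (VV p) (VV p) :=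
  Derivation.mk'
    { toFun := fun φ => ⟨pdG p a φ.1, by
        obtain ⟨_, n, f, hf, rfl⟩ := φ
        exact ⟨n, pdf a f, hf.pdf a, rfl⟩⟩
      map_add' := by
        rintro ⟨_, n, f, hf, rfl⟩ ⟨_, m, f', hf', rfl⟩
        apply Subtype.ext
        exact Germ.coe_eq.2 (pdf_add hf hf' a)
      map_smul' := by
        rintro c ⟨_, n, f, hf, rfl⟩
        apply Subtype.ext
        exact Germ.coe_eq.2 (pdf_const_mul hf c a) }
    (by
      rintro ⟨_, n, f, hf, rfl⟩ ⟨_, m, f', hf', rfl⟩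
      apply Subtype.ext
      exact Germ.coe_eq.2 (pdf_mul hf hf' a))

lemma pdV_mk (a : Fin N × ℕ) {f : Jets N → ℝ} {n : ℕ} (hf : AnalyticNear p n f) :
    pdV p a (mk p f ⟨n, hf⟩) = mk p (pdf a f) ⟨n, hf.pdf a⟩ := rfl

/-- the differential algebra of germs of analytic differential functions at `p` -/
noncomputable def germAlg : DiffAlg N (VV p) where
  pd := pdV p
  u a := mk p (fun x => x a) ⟨a.2 + 1, _, Rep.coord a⟩
  pd_u := by
    intro a b
    by_cases h : a = b
    · rw [if_pos h]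
      apply Subtype.ext
      refine Germ.coe_eq.2 (Eventually.of_forall fun x => ?_)
      simp only [pdf_coord, if_pos h]
    · rw [if_neg h]
      apply Subtype.ext
      refine Germ.coe_eq.2 (Eventually.of_forall fun x => ?_)
      simp only [pdf_coord, if_neg h]
  pd_comm := by
    intro a b φ
    obtain ⟨_, n, f, hf, rfl⟩ := φ
    apply Subtype.ext
    exact Germ.coe_eq.2 (pdf_comm hf a b)
  fin_order := by
    intro φ
    obtain ⟨_, n, f, hf, rfl⟩ := φ
    refine ⟨n, fun i j hj => ?_⟩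
    apply Subtype.ext
    refine Germ.coe_eq.2 ?_
    filter_upwards [pdf_zero_of_le hf] with x hx
    exact hx i j hj

lemma ordLT_mk {f : Jets N → ℝ} {n : ℕ} (hf : AnalyticNear p n f) :
    (germAlg p).OrdLT n (mk p f ⟨n, hf⟩) := by
  intro i j hj
  apply Subtype.ext
  refine Germ.coe_eq.2 ?_
  filter_upwards [pdf_zero_of_le hf] with x hx
  exact hx i j hj

end Ring

open MvPolynomial

/-- `D_x f`, the total `x`-derivative -/
noncomputable def totalD {N : ℕ} (f : Jets N → ℝ) (x : Jets N) : ℝ :=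
  ∑ᶠ j : ℕ, ∑ i : Fin N, x (i, j + 1) * pdf (i, j) f x

/-- total derivative of differential polynomials -/
noncomputable def Dx (N : ℕ) : Derivation ℝ (MvPolynomial (Fin N × ℕ) ℝ)
    (MvPolynomial (Fin N × ℕ) ℝ) := mkDerivation ℝ (fun a => X (a.1, a.2 + 1))

/-- `D_t f` along the evolution system `u^i_t = K i` -/
noncomputable def timeD {N : ℕ} (K : Fin N → MvPolynomial (Fin N × ℕ) ℝ) (f : Jets N → ℝ)
    (x : Jets N) : ℝ :=
  ∑ᶠ j : ℕ, ∑ i : Fin N, eval x ((Dx N)^[j] (K i)) * pdf (i, j) f x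

section Transfer

variable {N : ℕ} (p : Jets N)

lemma eval_near' (q : MvPolynomial (Fin N × ℕ) ℝ) :
    ∃ n, AnalyticNear p n (fun x => eval x q) := by
  induction q using MvPolynomial.induction_on with
  | C a =>
    have e : (fun x : Jets N => eval x (C a : MvPolynomial (Fin N × ℕ) ℝ)) = fun _ => a := by
      funext x; simp
    rw [e]
    exact ⟨0, _, Rep.const a⟩
  | add q r hq hr =>
    obtain ⟨n, hn⟩ := hq
    obtain ⟨m, hm⟩ := hr
    obtain ⟨g, g', hg, hg'⟩ := hn.common hm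
    have e : (fun x : Jets N => eval x (q + r)) = (fun x => eval x q) + fun x => eval x r := by
      funext x; simp
    rw [e]
    exact ⟨n + m, _, hg.add hg'⟩
  | mul_X q a hq =>
    obtain ⟨n, hn⟩ := hq
    obtain ⟨g, g', hg, hg'⟩ := hn.common (⟨_, Rep.coord a⟩ : AnalyticNear p (a.2 + 1) _)
    have e : (fun x : Jets N => eval x (q * X a)) = (fun x => eval x q) * fun x => x a := by
      funext x; simp
    rw [e]
    exact ⟨n + (a.2 + 1), _, hg.mul hg'⟩

/-- polynomials as germs -/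
noncomputable def Phi : MvPolynomial (Fin N × ℕ) ℝ →ₐ[ℝ] VV p := aeval (germAlg p).u

lemma Phi_eq (q : MvPolynomial (Fin N × ℕ) ℝ) :
    Phi p q = mk p (fun x => eval x q) (eval_near' p q) := by
  induction q using MvPolynomial.induction_on with
  | C a =>
    rw [Phi, aeval_C]
    apply Subtype.ext
    refine Germ.coe_eq.2 (Eventually.of_forall fun x => ?_)
    simp
  | add q r hq hr =>
    rw [map_add, hq, hr]
    apply Subtype.ext
    refine Germ.coe_eq.2 (Eventually.of_forall fun x => ?_)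
    simp
  | mul_X q a hq =>
    rw [map_mul, hq]
    have : Phi p (X a) = (germAlg p).u a := by simp [Phi]
    rw [this]
    apply Subtype.ext
    refine Germ.coe_eq.2 (Eventually.of_forall fun x => ?_)
    simp

lemma Phi_Dx (q : MvPolynomial (Fin N × ℕ) ℝ) : Phi p (Dx N q) = (germAlg p).D (Phi p q) := by
  induction q using MvPolynomial.induction_on with
  | C a => simp [Dx]
  | add q r hq hr => rw [map_add, map_add, hq, hr, map_add, map_add]
  | mul_X q a hq =>
    have h1 : Phi p (X a) = (germAlg p).u a := by simp [Phi]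
    have h2 : Dx N (X a) = X (a.1, a.2 + 1) := by simp [Dx]
    rw [Derivation.leibniz, map_add, smul_eq_mul, smul_eq_mul, map_mul, map_mul, hq, h2, map_mul,
      Derivation.leibniz, h1]
    have h3 : Phi p (X (a.1, a.2 + 1)) = (germAlg p).u (a.1, a.2 + 1) := by simp [Phi]
    rw [h3, ← (germAlg p).D_u a.1 a.2]
    simp only [smul_eq_mul]

lemma Phi_iter (k : ℕ) (q : MvPolynomial (Fin N × ℕ) ℝ) :
    Phi p ((Dx N)^[k] q) = (germAlg p).D^[k] (Phi p q) := by
  induction k generalizing q with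
  | zero => rfl
  | succ k ih => rw [Function.iterate_succ_apply, ih, Phi_Dx, Function.iterate_succ_apply]

lemma mk_sum {ι : Type} (s : Finset ι) (f : ι → Jets N → ℝ)
    (hf : ∀ i, ∃ n, AnalyticNear p n (f i)) (h : ∃ n, AnalyticNear p n (fun x => ∑ i ∈ s, f i x)) :
    mk p (fun x => ∑ i ∈ s, f i x) h = ∑ i ∈ s, mk p (f i) (hf i) := by
  classical
  apply Subtype.ext
  rw [AddSubmonoidClass.coe_finsetSum]
  have : (fun x => ∑ i ∈ s, f i x) = ∑ i ∈ s, f i := by
    funext x; simp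
  change ((fun x => ∑ i ∈ s, f i x : Jets N → ℝ) : Germ (𝓝 p) ℝ) = ∑ i ∈ s, (f i : Germ (𝓝 p) ℝ)
  rw [this]
  exact map_sum (Germ.coeRingHom (𝓝 p)) f s


lemma der_coe (w : Fin N × ℕ → VV p) (W : Fin N × ℕ → Jets N → ℝ)
    (hw : ∀ a, (w a : Germ (𝓝 p) ℝ) = W a) {n : ℕ} {f : Jets N → ℝ} (hf : AnalyticNear p n f) :
    ((germAlg p).der w (mk p f ⟨n, hf⟩) : Germ (𝓝 p) ℝ)
      = (fun x => ∑ᶠ j : ℕ, ∑ i : Fin N, W (i, j) x * pdf (i, j) f x : Jets N → ℝ) := by
  rw [(germAlg p).der_eq w (ordLT_mk p hf)]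
  have h1 : ∀ a, (w a : Germ (𝓝 p) ℝ) * ((pdf a f : Jets N → ℝ) : Germ (𝓝 p) ℝ)
      = ((W a * pdf a f : Jets N → ℝ) : Germ (𝓝 p) ℝ) := by
    intro a
    rw [hw]
    rfl
  have h2 : ((∑ j ∈ Finset.range n, ∑ i : Fin N, w (i, j) *
      (germAlg p).pd (i, j) (mk p f ⟨n, hf⟩) : VV p) : Germ (𝓝 p) ℝ)
      = ((∑ j ∈ Finset.range n, ∑ i : Fin N, W (i, j) * pdf (i, j) f : Jets N → ℝ) :
          Germ (𝓝 p) ℝ) := by
    rw [AddSubmonoidClass.coe_finsetSum]
    have h3 : ((∑ j ∈ Finset.range n, ∑ i : Fin N, W (i, j) * pdf (i, j) f : Jets N → ℝ) :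
          Germ (𝓝 p) ℝ) = ∑ j ∈ Finset.range n, ∑ i : Fin N,
          ((W (i, j) * pdf (i, j) f : Jets N → ℝ) : Germ (𝓝 p) ℝ) := by
      have := map_sum (Germ.coeRingHom (𝓝 p))
        (fun j => ∑ i : Fin N, W (i, j) * pdf (i, j) f) (Finset.range n)
      refine this.trans ?_
      apply Finset.sum_congr rfl
      intro j _
      exact map_sum (Germ.coeRingHom (𝓝 p)) (fun i : Fin N => W (i, j) * pdf (i, j) f) _
    rw [h3]
    apply Finset.sum_congr rfl
    intro j _
    rw [AddSubmonoidClass.coe_finsetSum]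
    apply Finset.sum_congr rfl
    intro i _
    rw [← h1]
    rfl
  rw [h2]
  refine Germ.coe_eq.2 ?_
  filter_upwards [pdf_zero_of_le hf] with x hx
  rw [finsum_eq_sum_of_support_subset (s := Finset.range n)]
  · simp
  · intro j hj
    rw [Function.mem_support] at hj
    by_contra h
    apply hj
    apply Finset.sum_eq_zero
    intro i _
    rw [hx i j (by simpa using h), mul_zero]

end Transfer

/-! ### The problem's notions -/

/-- a function of `u`, seen as a function on jets -/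
noncomputable def emb {N : ℕ} (q : MvPolynomial (Fin N) ℝ) : MvPolynomial (Fin N × ℕ) ℝ :=
  rename (fun i => (i, 0)) q

/-- right-hand side of the third-order system with coefficients `α`, `β` -/
noncomputable def system {N : ℕ} (α : Fin N → Fin N → Fin N → MvPolynomial (Fin N) ℝ)
    (β : Fin N → Fin N → Fin N → Fin N → MvPolynomial (Fin N) ℝ) (i : Fin N) :
    MvPolynomial (Fin N × ℕ) ℝ :=
  X (i, 3) + 3 * ∑ j, ∑ k, emb (α i j k) * X (j, 1) * X (k, 2)
    + ∑ j, ∑ k, ∑ m, emb (pderiv j (α i k m) + 2 * ∑ r, α i j r * α r k m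
        - ∑ r, α i r j * α r k m + β i j k m) * X (j, 1) * X (k, 1) * X (m, 1)

/-- curvature `R^i_{jkl}` -/
noncomputable def curv {N : ℕ} (α : Fin N → Fin N → Fin N → MvPolynomial (Fin N) ℝ)
    (i j k l : Fin N) : MvPolynomial (Fin N) ℝ :=
  pderiv k (α i j l) - pderiv l (α i j k) + ∑ s, (α i s k * α s j l - α i s l * α s j k)

/-- `σ^i_{jkl}`, where `σ(X,Y,Z) = β(X,Y,Z) - R(X,Y,Z)/3 + R(Z,X,Y)/3` -/
noncomputable def sigma {N : ℕ} (α : Fin N → Fin N → Fin N → MvPolynomial (Fin N) ℝ)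
    (β : Fin N → Fin N → Fin N → Fin N → MvPolynomial (Fin N) ℝ)
    (i j k l : Fin N) : MvPolynomial (Fin N) ℝ :=
  β i j k l - C (1 / 3) * curv α i j k l + C (1 / 3) * curv α i l j k

/-- covariant derivative `∇_m S^i_{jkl}` -/
noncomputable def cov {N : ℕ} (α : Fin N → Fin N → Fin N → MvPolynomial (Fin N) ℝ)
    (S : Fin N → Fin N → Fin N → Fin N → MvPolynomial (Fin N) ℝ)
    (m i j k l : Fin N) : MvPolynomial (Fin N) ℝ :=
  pderiv m (S i j k l) + ∑ s, (α i m s * S s j k l - α s m j * S i s k l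
    - α s m k * S i j s l - α s m l * S i j k s)

/-- conditions (C1)-(C5) -/
structure Conditions {N : ℕ} (α : Fin N → Fin N → Fin N → MvPolynomial (Fin N) ℝ)
    (β : Fin N → Fin N → Fin N → Fin N → MvPolynomial (Fin N) ℝ) : Prop where
  c1 : ∀ m i j k l, cov α (curv α) m i j k l = 0
  c2 : ∀ m i j k l, cov α (sigma α β) m i j k l = 0
  c3 : ∀ i j k l, curv α i j k l = sigma α β i j l k - sigma α β i j k l
  c4 : ∀ i j k l, sigma α β i j k l = sigma α β i l k j
  c5 : ∀ i x y z v w, ∑ s, (sigma α β i x s w * sigma α β s y z v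
    - sigma α β i w v s * sigma α β s x y z + sigma α β i z y s * sigma α β s x v w
    - sigma α β i x v s * sigma α β s z y w) = 0

/-- near the jet `p`, `ρ(u,…,u_k)` is an analytic density of a local conservation law:
`D_t ρ = D_x τ` for some local analytic `τ` -/
def Conserved {N : ℕ} (K : Fin N → MvPolynomial (Fin N × ℕ) ℝ) (p : Jets N) (k : ℕ)
    (ρ : Jets N → ℝ) : Prop :=
  AnalyticNear p (k + 1) ρ ∧
    ∃ n τ, AnalyticNear p n τ ∧ ∀ᶠ x in 𝓝 p, timeD K ρ x = totalD τ x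

/-- the matrix `∂²ρ/∂u^i_k∂u^j_k` at the jet `p` -/
noncomputable def hessian {N : ℕ} (k : ℕ) (ρ : Jets N → ℝ) (p : Jets N) :
    Matrix (Fin N) (Fin N) ℝ := Matrix.of fun i j => pdf (i, k) (pdf (j, k) ρ) p

/-- there is a local conservation law of order `k` with nondegenerate matrix
`∂²ρ/∂u^i_k∂u^j_k` (minimality of `k` modulo total derivatives is then automatic) -/
def HasNondegenerateLaw {N : ℕ} (K : Fin N → MvPolynomial (Fin N × ℕ) ℝ) (k : ℕ) : Prop :=
  ∃ p ρ, Conserved K p k ρ ∧ (hessian k ρ p).det ≠ 0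

/-- the tensor `β`: `β^v(X,X,X) = X_u^2 X_w` (indices `u=0`, `w=1`, `v=2`) -/
noncomputable def beta : Fin 3 → Fin 3 → Fin 3 → Fin 3 → MvPolynomial (Fin 3) ℝ :=
  fun i j k m => if i = 2 ∧ ((j = 0 ∧ k = 0 ∧ m = 1) ∨ (j = 0 ∧ k = 1 ∧ m = 0) ∨
    (j = 1 ∧ k = 0 ∧ m = 0)) then C (1 / 3) else 0

lemma beta_symm (i j k m : Fin 3) : beta i j k m = beta i k j m ∧ beta i j k m = beta i j m k := by
  unfold beta
  fin_cases j <;> fin_cases k <;> fin_cases m <;> simp

lemma beta_mul (i b c d j k l s : Fin 3) (h : j = s ∨ k = s ∨ l = s) :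
    beta i j k l * beta s b c d = 0 := by
  by_cases hs : s = 2
  · have : beta i j k l = 0 := by
      unfold beta
      rw [if_neg]
      subst hs
      rintro ⟨_, h'⟩
      rcases h with rfl | rfl | rfl <;> simp at h'
    rw [this, zero_mul]
  · have : beta s b c d = 0 := by
      unfold beta
      rw [if_neg]
      rintro ⟨h', _⟩
      exact hs h'
    rw [this, mul_zero]

lemma curv_zero (i j k l : Fin 3) : curv (fun _ _ _ => 0) i j k l = 0 := by simp [curv]

lemma sigma_zero : sigma (fun _ _ _ => 0) beta = beta := by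
  funext i j k l
  simp [sigma, curv_zero]

lemma conditions : Conditions (fun _ _ _ => 0) beta := by
  refine ⟨?_, ?_, ?_, ?_, ?_⟩
  · intro m i j k l; simp [cov, curv_zero]
  · intro m i j k l
    rw [sigma_zero]
    simp only [cov, beta]
    split_ifs <;> simp
  · intro i j k l
    rw [curv_zero, sigma_zero, (beta_symm i j k l).2]; ring
  · intro i j k l
    rw [sigma_zero, (beta_symm i j k l).1, (beta_symm i k j l).2, (beta_symm i k l j).1]
  · intro i x y z v w
    rw [sigma_zero]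
    apply Finset.sum_eq_zero
    intro s _
    rw [beta_mul _ _ _ _ _ _ _ s (Or.inr (Or.inl rfl)), beta_mul _ _ _ _ _ _ _ s (Or.inr (Or.inr rfl)),
      beta_mul _ _ _ _ _ _ _ s (Or.inr (Or.inr rfl)), beta_mul _ _ _ _ _ _ _ s (Or.inr (Or.inr rfl))]
    ring

lemma system_eq : system (fun _ _ _ => 0) beta =
    ![X (0, 3), X (1, 3), X (2, 3) + X (0, 1) ^ 2 * X (1, 1)] := by
  have h3 : (C (1 / 3) : MvPolynomial (Fin 3 × ℕ) ℝ) * 3 = 1 := by
    rw [← map_ofNat (C : ℝ →+* MvPolynomial (Fin 3 × ℕ) ℝ) 3, ← C_mul]; norm_num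
  funext i
  fin_cases i
  · simp [system, emb, beta]
  · simp [system, emb, beta]
  · simp [system, emb, beta, Fin.sum_univ_three]
    simp only [one_div] at h3
    linear_combination (X (0, 1) ^ 2 * X (1, 1)) * h3

lemma Phi_system (p : Jets 3) (i : Fin 3) :
    Phi p (system (fun _ _ _ => 0) beta i) = rhs (germAlg p) i := by
  rw [system_eq]
  fin_cases i <;> simp [Phi, rhs, cub]

theorem no_law (k : ℕ) (p : Jets 3) (ρ : Jets 3 → ℝ)
    (h : Conserved (system (fun _ _ _ => 0) beta) p (k + 1) ρ) :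
    (hessian (k + 1) ρ p).det = 0 := by
  obtain ⟨hρ, n, τ, hτ, heq⟩ := h
  have h1 : (germAlg p).ev (rhs (germAlg p)) (mk p ρ ⟨_, hρ⟩) = (germAlg p).D (mk p τ ⟨_, hτ⟩) := by
    apply Subtype.ext
    have e1 := der_coe p (fun a => (germAlg p).D^[a.2] (rhs (germAlg p) a.1))
      (fun a x => eval x ((Dx 3)^[a.2] (system (fun _ _ _ => 0) beta a.1))) (by
        intro a
        rw [← Phi_system, ← Phi_iter, Phi_eq]
        rfl) hρ
    have e2 := der_coe p (fun a => (germAlg p).u (a.1, a.2 + 1))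
      (fun a x => x (a.1, a.2 + 1)) (fun a => rfl) hτ
    refine e1.trans (Eq.trans ?_ e2.symm)
    exact Germ.coe_eq.2 heq
  have h2 := hessian_column (germAlg p) k (mk p ρ ⟨_, hρ⟩) (mk p τ ⟨_, hτ⟩) (ordLT_mk p hρ) h1
  apply Matrix.det_eq_zero_of_column_eq_zero 2
  intro i
  have h3 : pdf (i, k + 1) (pdf (2, k + 1) ρ) =ᶠ[𝓝 p] 0 := by
    have := h2 i
    exact Germ.coe_eq.1 (congrArg Subtype.val this)
  have := h3.self_of_nhds
  simpa [hessian] using this

/-- **Disproof of Q1.** A zero-torsion system satisfying (C1)-(C5) with no nondegenerate local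
conservation law of any order `k ≥ 1`. -/
theorem result : ∃ (N : ℕ) (α : Fin N → Fin N → Fin N → MvPolynomial (Fin N) ℝ)
    (β : Fin N → Fin N → Fin N → Fin N → MvPolynomial (Fin N) ℝ),
    (∀ i j k, α i j k = α i k j) ∧
    (∀ i j k m, β i j k m = β i k j m ∧ β i j k m = β i j m k) ∧
    Conditions α β ∧
    ∀ k, 1 ≤ k → ¬ HasNondegenerateLaw (system α β) k := by
  refine ⟨3, fun _ _ _ => 0, beta, fun _ _ _ => rfl, beta_symm, conditions, ?_⟩
  rintro k hk ⟨p, ρ, h, hdet⟩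
  obtain ⟨k, rfl⟩ : ∃ m, k = m + 1 := ⟨k - 1, by omega⟩
  exact hdet (no_law k p ρ h)

end Pool.Agent.Results.MP_027f17_mp.DegenerateLaws
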